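import Pool.Agent.H5.FL.Stm

set_option autoImplicit false

open MeasureTheory
open H5.FL

namespace H83.FL

theorem t_EEE (hPMN : S_PMN) : S_EEE := by
  intro M hM x hx0 hx1
  obtain ⟨h1, h2⟩ := hPMN M hM
  have hm : (1 : ℝ) ≤ M - 1 := by linarith
  have hm0 : (0 : ℝ) < M - 1 := by linarith
  have hM0 : (0 : ℝ) < M := by linarith
  have hx1' : 0 < 1 - x := by linarith
  have key : 1 / M ≤ x →
      (1 - x) ^ 2 * psi M x + (M - 1) * x ^ 2 * psi M ((1 - x) / (M - 1)) = 1 := by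
    intro hx
    have hx' : 1 ≤ x * M := by rwa [div_le_iff₀ hM0] at hx
    have hy0 : 0 ≤ (1 - x) / (M - 1) := by positivity
    have hy1 : (1 - x) / (M - 1) ≤ 1 / M := by
      rw [div_le_div_iff₀ hm0 hM0]; nlinarith
    rw [h2 x hx hx1, h1 _ hy0 hy1]
    unfold rr
    have hne : M - 1 ≠ 0 := hm0.ne'
    have hne' : (1 - x) ≠ 0 := hx1'.ne'
    field_simp
    ring
  refine ⟨?_, key⟩
  rcases le_total (1 / M) x with hx | hx
  · exact (key hx).le
  · have hx' : x * M ≤ 1 := by rwa [le_div_iff₀ hM0] at hx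
    have hy1 : 1 / M ≤ (1 - x) / (M - 1) := by
      rw [div_le_div_iff₀ hM0 hm0]; nlinarith
    have hy2 : (1 - x) / (M - 1) < 1 := by
      rw [div_lt_one hm0]; linarith
    rw [h1 x hx0.le hx, h2 _ hy1 hy2]
    have hden : 0 < M - 2 + x := by linarith
    have e1 : 1 - (1 - x) / (M - 1) = (M - 2 + x) / (M - 1) := by
      field_simp; ring
    have hrr : rr M ((1 - x) / (M - 1)) =
        ((M - 1) ^ 2 - (M - 1) * (1 - x) ^ 2 - M * (1 - x) ^ 2 * (M - 2 + x) / (M - 1) ^ 2) /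
          (M - 2 + x) ^ 2 := by
      unfold rr
      rw [e1]
      field_simp
    rw [hrr]
    have hB : 0 ≤ (M - 2) ^ 2 + (3 * M - 5) * x - (M - 2) * x ^ 2 := by
      have : x ^ 2 ≤ x := by nlinarith
      have h3 : (M - 2) * x ^ 2 ≤ (M - 2) * x :=
        mul_le_mul_of_nonneg_left this (by linarith)
      nlinarith [sq_nonneg (M - 2)]
    have hid : 1 - ((1 - x) ^ 2 * (1 + M / (M - 1) * x) + (M - 1) * x ^ 2 *
        (((M - 1) ^ 2 - (M - 1) * (1 - x) ^ 2 - M * (1 - x) ^ 2 * (M - 2 + x) / (M - 1) ^ 2) /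
          (M - 2 + x) ^ 2)) =
        x * (M - 2) * (1 - M * x) * ((M - 2) ^ 2 + (3 * M - 5) * x - (M - 2) * x ^ 2) /
          ((M - 1) * (M - 2 + x) ^ 2) := by
      field_simp
      ring
    have hnn : 0 ≤ x * (M - 2) * (1 - M * x) *
        ((M - 2) ^ 2 + (3 * M - 5) * x - (M - 2) * x ^ 2) /
          ((M - 1) * (M - 2 + x) ^ 2) := by
      apply div_nonneg
      · apply mul_nonneg _ hB
        apply mul_nonneg (mul_nonneg hx0.le (by linarith)) (by nlinarith)
      · positivity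
    linarith

end H83.FL
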