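import Pool.Agent.H5.FL.Stm

set_option autoImplicit false

open MeasureTheory
open H5.FL

namespace H83.FL

theorem t_JNB (hJEN : S_JEN) (hSMD : S_SMD) : S_JNB := by
  intro N hN q _ ξ hq j
  obtain ⟨hs, -, -⟩ := hSMD N hN
  obtain ⟨hpos, hsum⟩ := hs ξ
  have h := hJEN N hN (fun i => sm ξ i) (fun i => (hpos i).1) hsum j
  unfold BB psiT
  rw [min_eq_left (hq j)]
  have h2 : ∑ i ∈ Finset.univ.erase j, psi (N : ℝ) (min (sm ξ i) q) =
      ∑ i ∈ Finset.univ.erase j, psi (N : ℝ) (sm ξ i) :=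
    Finset.sum_congr rfl (fun i _ => by rw [min_eq_left (hq i)])
  rw [h2]
  exact h

end H83.FL
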